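import Pool.Agent.H39.Final
import Pool.Agent.H39.Biv

open MeasureTheory ProbabilityTheory Set Filter Topology
open scoped Nat

namespace Pool.Agent.Results.MP_1b6454_pr.NoSignFunction

/-- The quantile function `Φ⁻¹` of the standard normal distribution. -/
noncomputable def PhiInv (p : ℝ) : ℝ := sInf {x : ℝ | p ≤ cdf (gaussianReal 0 1) x}

/-- The normalised probabilists' Hermite polynomial
`H_n(x) = ((-1)^n / √(n!)) e^{x²/2} (d/dx)^n e^{-x²/2}`. -/
noncomputable def H (n : ℕ) (x : ℝ) : ℝ :=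
  (-1) ^ n / √(n ! : ℝ) * Real.exp (x ^ 2 / 2) *
    iteratedDeriv n (fun y : ℝ => Real.exp (-y ^ 2 / 2)) x

/-- `c(p) = p (1 - p) / φ(Φ⁻¹(p))²` with `φ` the standard normal density. -/
noncomputable def c (p : ℝ) : ℝ := p * (1 - p) / gaussianPDFReal 0 1 (PhiInv p) ^ 2

/-- `ψ(p,p;ρ) = c(p)⁻¹ ∑_{n ≥ 1} H_{n-1}(Φ⁻¹(p))² ρ^n / n`. -/
noncomputable def psi (p ρ : ℝ) : ℝ :=
  1 / c p * ∑' n : ℕ, 1 / ((n : ℝ) + 1) * H n (PhiInv p) ^ 2 * ρ ^ (n + 1)

/-- `h_b(ρ) = E[b(X) b(Y)]` for `(X, Y)` centred bivariate normal with covariance matrix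
`[[1, ρ], [ρ, 1]]`. -/
noncomputable def corr (b : ℝ → ℝ) (ρ : ℝ) : ℝ :=
  ∫ z, b (z 0) * b (z 1) ∂(multivariateGaussian (0 : EuclideanSpace ℝ (Fin 2)) !![1, ρ; ρ, 1])

/-- Sanity check (not used below): `PhiInv p` is the point where the standard normal
distribution function takes the value `p`. -/
lemma cdf_PhiInv {p : ℝ} (hp : p ∈ Ioo (0 : ℝ) 1) : cdf (gaussianReal 0 1) (PhiInv p) = p := by
  set S : Set ℝ := {x : ℝ | p ≤ cdf (gaussianReal 0 1) x} with hS
  have htop := tendsto_cdf_atTop (gaussianReal 0 1)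
  have hbot := tendsto_cdf_atBot (gaussianReal 0 1)
  have hne : S.Nonempty := by
    obtain ⟨x, hx⟩ := (htop.eventually (lt_mem_nhds hp.2)).exists
    exact ⟨x, hx.le⟩
  obtain ⟨b, hb⟩ := (hbot.eventually (gt_mem_nhds hp.1)).exists
  have hbdd : BddBelow S := by
    refine ⟨b, fun x hx => ?_⟩
    by_contra hcon
    push Not at hcon
    have h1 := monotone_cdf (gaussianReal 0 1) hcon.le
    have h2 : p ≤ cdf (gaussianReal 0 1) x := hx
    linarith
  have hcont : Continuous (cdf (gaussianReal 0 1)) := by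
    have hna : ∀ x : ℝ, (gaussianReal 0 1) {x} = 0 := by
      intro x
      have := gaussianReal_absolutelyContinuous 0 (v := 1) one_ne_zero
      exact this (by simp)
    rw [continuous_iff_continuousAt]
    intro x
    rw [(monotone_cdf (gaussianReal 0 1)).continuousAt_iff_leftLim_eq_rightLim,
      StieltjesFunction.rightLim_eq]
    have h1 := hna x
    have h2 := measure_cdf (gaussianReal 0 1)
    rw [← h2, StieltjesFunction.measure_singleton, ENNReal.ofReal_eq_zero] at h1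
    have h3 := (monotone_cdf (gaussianReal 0 1)).leftLim_le (le_refl x)
    linarith
  apply le_antisymm
  · -- left continuity
    have h1 : Tendsto (cdf (gaussianReal 0 1)) (𝓝[<] (PhiInv p))
        (𝓝 (cdf (gaussianReal 0 1) (PhiInv p))) :=
      (hcont.tendsto _).mono_left nhdsWithin_le_nhds
    refine le_of_tendsto h1 ?_
    filter_upwards [self_mem_nhdsWithin] with x hx
    by_contra hcon
    push Not at hcon
    have : PhiInv p ≤ x := csInf_le hbdd hcon.le
    exact absurd hx (not_lt.2 this)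
  · have hclosed : IsClosed S := isClosed_le continuous_const hcont
    exact hclosed.csInf_mem hne hbdd

lemma H_sq (n : ℕ) (x : ℝ) : H n x ^ 2 = Pool.Agent.H39.He n x ^ 2 / (n ! : ℝ) := by
  have h1 := Polynomial.hermite_eq_deriv_gaussian n x
  have h2 : (fun y : ℝ => Real.exp (-(y ^ 2 / 2))) = fun y : ℝ => Real.exp (-y ^ 2 / 2) := by
    ext y
    congr 1
    ring
  rw [h2] at h1
  have h3 : H n x = (√(n ! : ℝ))⁻¹ * Pool.Agent.H39.He n x := by
    rw [H, Pool.Agent.H39.He, h1, iteratedDeriv_eq_iterate]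
    have h4 : Real.exp (-(x ^ 2 / 2)) = (Real.exp (x ^ 2 / 2))⁻¹ := by
      rw [Real.exp_neg]
    rw [h4]
    field_simp
  rw [h3, mul_pow, inv_pow, Real.sq_sqrt (by positivity)]
  field_simp

lemma psi_eq (p ρ : ℝ) : psi p ρ = Pool.Agent.H39.psiS (PhiInv p) (c p) ρ := by
  unfold psi Pool.Agent.H39.psiS
  congr 2
  ext n
  rw [H_sq]
  have h1 : (n ! : ℝ) ≠ 0 := by positivity
  have h2 : (n : ℝ) + 1 ≠ 0 := by positivity
  field_simp

lemma c_pos {p : ℝ} (hp : p ∈ Ioo (0 : ℝ) 1) : 0 < c p := by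
  have h1 : 0 < gaussianPDFReal 0 1 (PhiInv p) := gaussianPDFReal_pos 0 1 _ one_ne_zero
  have h2 := hp.1
  have h3 : 0 < 1 - p := by linarith [hp.2]
  unfold c
  positivity

/-- For no `p ≠ 1/2` is there a Borel `±1`-valued function whose correlation function is
`ψ(p,p;·)`. -/
theorem result : ∀ p ∈ Set.Ioo (0 : ℝ) 1, p ≠ 1 / 2 → ∀ χ : ℝ → ℝ, Measurable χ →
    (∀ x, χ x = 1 ∨ χ x = -1) → ∃ ρ ∈ Set.Icc (-1 : ℝ) 1, corr χ ρ ≠ psi p ρ := by
  intro p hp hp2 χ hm hv
  by_contra hcon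
  push Not at hcon
  set a := PhiInv p with ha
  have hcpos := c_pos hp
  have hχ : Pool.Agent.H39.PM χ := ⟨hm, hv⟩
  have hpi := Real.pi_pos
  have key : ∀ ρ : ℝ, |ρ| ≤ 1 → Pool.Agent.H39.h2 χ ρ = Pool.Agent.H39.psiS a (c p) ρ := by
    intro ρ hρ
    rw [← psi_eq, ← hcon ρ (abs_le.1 hρ), corr, Pool.Agent.H39.integral_biv hρ hm]
  -- normalisation at one
  have hone : Pool.Agent.H39.psiS a (c p) 1 = 1 := by
    rw [← key 1 (by norm_num), Pool.Agent.H39.h2]
    have : ∀ q : ℝ × ℝ, χ q.1 * χ (1 * q.1 + √(1 - (1:ℝ) ^ 2) * q.2) = 1 := by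
      intro q
      have h1 : (1:ℝ) * q.1 + √(1 - (1:ℝ) ^ 2) * q.2 = q.1 := by norm_num
      rw [h1, hχ.mul_self]
    simp_rw [this]
    simp
  set κ := Real.exp (a ^ 2 / 2) / (2 * c p) with hκ
  have hκ0 : 0 ≤ κ := by positivity
  -- bounds on the disagreement probability, for `χ`
  have hDχ : ∀ t ∈ Icc 0 (Real.pi / 2), Pool.Agent.H39.Dp χ t
      = (1 - Pool.Agent.H39.psiS a (c p) (Real.cos t)) / 2 := by
    intro t ht
    rw [Pool.Agent.H39.Dp_eq hχ ⟨ht.1, by linarith [ht.2]⟩, key _ (Real.abs_cos_le_one t)]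
  have hbd := fun t (ht : t ∈ Icc 0 (Real.pi / 2)) =>
    Pool.Agent.H39.D_bounds hcpos hDχ hone ht
  have hfin := Pool.Agent.H39.Jset_finite hχ hκ0
    (fun t ht => (hbd t ⟨ht.1.le, ht.2⟩).2)
  -- pass to the step function representative
  set χ' := Pool.Agent.H39.chiR χ with hχ'
  have hPM' := Pool.Agent.H39.PM_chiR hχ hfin
  have hstep := Pool.Agent.H39.isStep_chiR hχ hfin
  have hae := Pool.Agent.H39.chiR_ae_eq hχ hfin
  have haeg : χ' =ᵐ[gaussianReal 0 1] χ :=
    (gaussianReal_absolutelyContinuous 0 one_ne_zero).ae_eq hae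
  -- equality of disagreement probabilities
  have hD' : ∀ t, Pool.Agent.H39.Dp χ' t = Pool.Agent.H39.Dp χ t := by
    intro t
    have hrot := Pool.Agent.H39.map_rotation t
    have h1 : (fun q : ℝ × ℝ => χ' q.1) =ᵐ[(gaussianReal 0 1).prod (gaussianReal 0 1)]
        fun q => χ q.1 := by
      have := (Measure.quasiMeasurePreserving_fst (μ := gaussianReal 0 1)
        (ν := gaussianReal 0 1)).ae_eq haeg
      exact this
    have h2 : (fun q : ℝ × ℝ => χ' (Pool.Agent.H39.Xr t q))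
        =ᵐ[(gaussianReal 0 1).prod (gaussianReal 0 1)]
        fun q => χ (Pool.Agent.H39.Xr t q) := by
      have h3 : MeasurePreserving (ContinuousLinearMap.rotation t : ℝ × ℝ →L[ℝ] ℝ × ℝ)
          ((gaussianReal 0 1).prod (gaussianReal 0 1)) ((gaussianReal 0 1).prod (gaussianReal 0 1)) :=
        ⟨by fun_prop, hrot⟩
      have := h3.quasiMeasurePreserving.ae_eq h1
      exact this
    unfold Pool.Agent.H39.Dp Pool.Agent.H39.dd
    apply integral_congr_ae
    filter_upwards [h1, h2] with q hq1 hq2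
    rw [hq1, hq2]
  have hsum := Pool.Agent.H39.summable_J hPM' hstep hκ0
    (fun t ht => by rw [hD' t]; exact (hbd t ht).1)
    (fun t ht => by rw [hD' t]; exact (hbd t ht).2)
  have hcoef : ∀ m : ℕ, (Pool.Agent.H39.hc χ' (m + 1)) ^ 2 = (Pool.Agent.H39.He m a) ^ 2 / c p := by
    intro m
    have h1 := Pool.Agent.H39.hc_sq_eq hχ (a := a) (c := c p) (fun ρ hρ => key ρ hρ.le) m
    rw [← h1]
    congr 1
    unfold Pool.Agent.H39.hc
    apply integral_congr_ae
    filter_upwards [haeg] with q hq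
    rw [hq]
  have hconc := Pool.Agent.H39.conclusion hPM' hstep hsum hcpos hcoef
  -- algebra
  have hφ : gaussianPDFReal 0 1 a ^ 2 = (2 * Real.pi)⁻¹ * Real.exp (-a ^ 2) := by
    rw [Pool.Agent.H39.gpdf_eq, mul_pow, inv_pow, Real.sq_sqrt (by positivity),
      ← Real.exp_nat_mul]
    congr 2
    push_cast
    ring
  have hpq : 0 < p * (1 - p) := mul_pos hp.1 (by linarith [hp.2])
  have h4 : 4 * (p * (1 - p)) = 1 := by
    have h5 : c p = p * (1 - p) / ((2 * Real.pi)⁻¹ * Real.exp (-a ^ 2)) := by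
      rw [c, ← ha, hφ]
    rw [h5] at hconc
    have h6 : Real.pi / (2 * (p * (1 - p) / ((2 * Real.pi)⁻¹ * Real.exp (-a ^ 2)))) *
        Real.exp (a ^ 2 / 2) = (1 / (4 * (p * (1 - p)))) * (Real.exp (-a ^ 2) *
          Real.exp (a ^ 2 / 2)) := by
      have := Real.exp_pos (-a ^ 2)
      field_simp
      norm_num
    rw [h6, ← Real.exp_add, show -a ^ 2 + a ^ 2 / 2 = -a ^ 2 / 2 by ring] at hconc
    have h7 : 1 / (4 * (p * (1 - p))) = 1 := by
      have h8 := Real.exp_pos (-a ^ 2 / 2)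
      have h9 : (1 / (4 * (p * (1 - p))) - 1) * Real.exp (-a ^ 2 / 2) = 0 := by linarith
      rcases mul_eq_zero.1 h9 with h10 | h10
      · linarith
      · exact absurd h10 h8.ne'
    rw [div_eq_one_iff_eq (by positivity)] at h7
    exact h7.symm
  apply hp2
  nlinarith [sq_nonneg (p - 1 / 2)]

end Pool.Agent.Results.MP_1b6454_pr.NoSignFunction
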